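import Mathlib
import Pool.Agent.H93.Fool

set_option autoImplicit false

namespace Pool.Agent.Results.MP_562679_an.Curse

open MeasureTheory Pointwise

/-- Euclidean space. -/
abbrev E (d : ℕ) := EuclideanSpace ℝ (Fin d)

/-- The class of integrands on the domain D. -/
def InClass {d : ℕ} (D : Set (E d)) (f : E d → ℝ) : Prop :=
  ContDiffOn ℝ 2 f D ∧ (∀ y ∈ D, |f y| ≤ 1) ∧
    (∀ y ∈ D, ∀ z ∈ D, |f y - f z| ≤ (Real.sqrt (d : ℝ))⁻¹ * dist y z) ∧
    (∀ θ : E d, ‖θ‖ = 1 → ∀ y ∈ D, ∀ z ∈ D,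
      |fderiv ℝ f y θ - fderiv ℝ f z θ| ≤ ((d : ℝ))⁻¹ * dist y z)

/-- The list of the first k function values seen by an adaptive sampling rule. -/
def info {d : ℕ} {D : Set (E d)} (next : List ℝ → D) (f : E d → ℝ) : ℕ → List ℝ
  | 0 => []
  | k + 1 => f (next (info next f k)) :: info next f k

/-- The n-th minimal worst case error over deterministic adaptive algorithms. -/
noncomputable def err {d : ℕ} (D : Set (E d)) (n : ℕ) : ENNReal :=
  ⨅ (next : List ℝ → D) (out : List ℝ → ℝ), ⨆ (f : E d → ℝ) (_ : InClass D f),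
    ENNReal.ofReal |(∫ y in D, f y) - out (info next f n)|

/-- The curse of dimensionality, in the strong form valid for every dimension. -/
def HasCurse (D : (d : ℕ) → Set (E d)) : Prop :=
  ∃ C γ ε₀ : ℝ, 0 < C ∧ 0 < γ ∧ 0 < ε₀ ∧ ∀ ε : ℝ, 0 < ε → ε ≤ ε₀ → ∀ d : ℕ, 1 ≤ d →
    ∀ n : ℕ, err (D d) n ≤ ENNReal.ofReal ε → C * (1 + γ) ^ d ≤ n

/-- The open unit ball of l_p^d. -/
def unitBall (p : ℝ) (d : ℕ) : Set (E d) := {x | ∑ i, |x i| ^ p < 1}

/-- The volume normalized ball of l_p^d. -/
noncomputable def B (p : ℝ) (d : ℕ) : Set (E d) :=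
  ((volume (unitBall p d)).toReal ^ (-(1 : ℝ) / d)) • unitBall p d

lemma curse (D : (d : ℕ) → Set (E d))
    (hD : ∀ d, 1 ≤ d → IsOpen (D d) ∧ volume (D d) = 1) : HasCurse D := by
  refine ⟨1 / 2, 1, 1 / 3456 / 4, by norm_num, one_pos, by norm_num, fun ε h0 h1 d hd n hn => ?_⟩
  by_contra hc
  push Not at hc
  have : ENNReal.ofReal (1 / 3456 / 2) ≤ err (D d) n := by
    refine le_iInf fun next => le_iInf fun out => ?_
    obtain ⟨f, a1, a2, a3, a4, a5, a6⟩ := Pool.Agent.H93.Fool.fool d hd (D d)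
      (hD d hd).1.measurableSet (hD d hd).2 n (fun i => next (List.replicate i 0)) (1 / 3456)
      (by norm_num) (by norm_num) (by
        rw [show (864 * (1 / 3456) : ℝ) = (1 / 2) ^ (2 : ℝ) by norm_num,
          ← Real.rpow_mul (by norm_num), show (2 : ℝ) * (d / 2) = d by ring, Real.rpow_natCast,
          one_div_pow, mul_one_div, div_le_iff₀ (by positivity)]
        norm_num at hc ⊢; linarith)
    have hi : ∀ g : E d → ℝ, (∀ i : Fin n, g (next (List.replicate i 0)) = 0) →
        ∀ k, k ≤ n → info next g k = List.replicate k 0 := by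
      intro g hg k
      induction k with
      | zero => intro _; rfl
      | succ k ih =>
        intro hk
        rw [info, ih (by omega), hg ⟨k, by omega⟩, List.replicate_succ]
    have c1 : InClass (D d) f := ⟨a1.contDiffOn, fun y _ => a2 y, fun y _ z _ => a3 y z,
      fun θ hθ y _ z _ => a4 θ hθ y z⟩
    have c2 : InClass (D d) (fun y => -f y) := by
      refine ⟨a1.neg.contDiffOn, fun y _ => by simpa using a2 y, fun y _ z _ => ?_,
        fun θ hθ y _ z _ => ?_⟩
      · rw [← abs_neg]; convert a3 y z using 2; ring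
      · rw [← abs_neg, fderiv_fun_neg, fderiv_fun_neg]
        convert a4 θ hθ y z using 2
        simp only [neg_apply]; ring
    rcases le_total (out (List.replicate n 0)) 0 with h | h
    · refine le_iSup₂_of_le f c1 (ENNReal.ofReal_le_ofReal ?_)
      rw [hi f a5 n le_rfl]
      exact le_trans (by linarith) (le_abs_self _)
    · refine le_iSup₂_of_le (fun y => -f y) c2 (ENNReal.ofReal_le_ofReal ?_)
      rw [hi (fun y => -f y) (fun i => by simpa using a5 i) n le_rfl, integral_neg]
      exact le_trans (by linarith) (neg_le_abs _)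
  have h2 := (ENNReal.ofReal_le_ofReal_iff h0.le).1 (this.trans hn)
  linarith

lemma ball_ok (p : ℝ) (hp : 0 < p) (d : ℕ) (hd : 1 ≤ d) :
    IsOpen (B p d) ∧ volume (B p d) = 1 := by
  have ho : IsOpen (unitBall p d) :=
    isOpen_lt (continuous_finsetSum _ fun i _ =>
      Continuous.rpow_const (by fun_prop) (fun _ => Or.inr hp.le)) continuous_const
  have h0 : volume (unitBall p d) ≠ 0 :=
    (ho.measure_pos volume ⟨0, by simp [unitBall, hp.ne']⟩).ne'
  have h1 : volume (unitBall p d) ≠ ⊤ := by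
    refine ne_top_of_le_ne_top (measure_closedBall_lt_top (x := (0 : E d)) (r := √d)).ne
      (measure_mono fun x hx => ?_)
    rw [mem_closedBall_zero_iff, EuclideanSpace.norm_eq]
    refine Real.sqrt_le_sqrt ?_
    calc ∑ i, ‖x i‖ ^ 2 ≤ ∑ _i : Fin d, (1 : ℝ) := by
          refine Finset.sum_le_sum fun i _ => ?_
          have a : |x i| ^ p < 1 := lt_of_le_of_lt (Finset.single_le_sum
            (f := fun i => |x i| ^ p) (fun i _ => by positivity) (Finset.mem_univ i)) hx
          have b : |x i| ≤ 1 := by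
            by_contra hb
            linarith [Real.one_le_rpow (not_le.1 hb).le hp.le]
          rw [Real.norm_eq_abs]
          exact pow_le_one₀ (abs_nonneg _) b
      _ = d := by simp
  have hv : 0 < (volume (unitBall p d)).toReal := ENNReal.toReal_pos h0 h1
  have hd' : (0 : ℝ) < d := by exact_mod_cast hd
  refine ⟨ho.smul₀ (by positivity), ?_⟩
  rw [B, Measure.addHaar_smul, finrank_euclideanSpace_fin, ← Real.rpow_natCast,
    ← Real.rpow_mul hv.le, show -(1 : ℝ) / d * d = -1 by field_simp, Real.rpow_neg_one,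
    abs_of_pos (by positivity), ENNReal.ofReal_inv_of_pos hv, ENNReal.ofReal_toReal h1,
    ENNReal.inv_mul_cancel h0 h1]

theorem result :
    (∀ p : ℝ, 0 < p → (∀ d, 1 ≤ d → IsOpen (B p d) ∧ volume (B p d) = 1) ∧ HasCurse (B p)) ∧
    ∀ D : (d : ℕ) → Set (E d), (∀ d, 1 ≤ d → IsOpen (D d) ∧ volume (D d) = 1) → HasCurse D :=
  ⟨fun p hp => ⟨ball_ok p hp, curse _ (ball_ok p hp)⟩, curse⟩

end Pool.Agent.Results.MP_562679_an.Curse
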